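import Mathlib
import Pool.Agent.Lib.MP_61b4dd_nt.Main

/-!
For all large `n` the interval between `n ^ 2` and `(n + 1) ^ 2` contains at least two, and in fact
at least `2 + n / (log log n) ^ 30`, Sophie Germain cyclic numbers.
-/

namespace Pool.Agent.Results.MP_61b4dd_nt.LargeN

theorem result (n : ℕ) (hn : 6000 ≤ Real.log (Real.log n)) :
    2 + (n : ℝ) / Real.log (Real.log n) ^ 30 ≤
      (((Finset.Ioo (n ^ 2) ((n + 1) ^ 2)).filter fun c =>
        Nat.gcd c (Nat.totient c) = 1 ∧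
          Nat.gcd (2 * c + 1) (Nat.totient (2 * c + 1)) = 1).card : ℝ) := by
  have h : Finset.Ioo (n ^ 2) ((n + 1) ^ 2) = Finset.Ioc (n ^ 2) (n ^ 2 + 2 * n) := by
    ext c
    have : (n + 1) ^ 2 = n ^ 2 + 2 * n + 1 := by ring
    simp only [Finset.mem_Ioo, Finset.mem_Ioc, this]
    omega
  rw [h]
  exact Pool.Agent.Lib.MP_61b4dd_nt.main n hn

end Pool.Agent.Results.MP_61b4dd_nt.LargeN
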